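import Pool.Agent.H992.SF.Defs

/-!
# SF/EQUIV (helper299 for helper992)
-/

set_option autoImplicit false
open MeasureTheory Filter Topology Complex
open scoped ContDiff ENNReal

namespace Pool.Agent.H299.SF

open Pool.Agent.W745.RW (TF)
open Pool.Agent.N661.BR (MW lin IsRandomWave IsErgodic)
open Pool.Agent.N661.BH
open Pool.Agent.N814.BHM
open Pool.Agent.N814.BHASM

section

variable {Ω : Set ℂ} {lam : ℕ → ℝ} {u : ℕ → ℂ → ℝ}

lemma meas_wt {φ : ℂ → ℝ} (hφ : Wt Ω φ) : Measurable fun p : ℂ × (ℝ × Bool) => φ p.1 :=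
  hφ.tf.1.continuous.measurable.comp measurable_fst

lemma int_wt (H : Hyp Ω lam u) {φ : ℂ → ℝ} (hφ : Wt Ω φ) :
    Integrable (fun p : ℂ × (ℝ × Bool) => φ p.1) (P Ω) := by
  have := probP H
  exact Integrable.of_bound (meas_wt hφ).aestronglyMeasurable 1 (Eventually.of_forall fun p => by
      rw [Real.norm_eq_abs, abs_of_nonneg (hφ.mem _).1]
      exact (hφ.mem _).2)

lemma int_wt_ex (H : Hyp Ω lam u) {φ : ℂ → ℝ} (hφ : Wt Ω φ) (n : ℕ) {k : ℕ} (c w : Fin k → ℂ) :
    Integrable (fun p => (φ p.1 : ℂ) * ex (lam n) (u n) c w p) (P Ω) := by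
  have := probP H
  exact Integrable.of_bound ((Complex.measurable_ofReal.comp (meas_wt hφ)).mul
      (ex_meas (H.sm n) (lam := lam n) c w)).aestronglyMeasurable 1
      (Eventually.of_forall fun p => by
        rw [norm_mul, ex_norm, mul_one, Complex.norm_real, Real.norm_eq_abs,
          abs_of_nonneg (hφ.mem _).1]
        exact (hφ.mem _).2)

/-- the weighted characteristic functions -/
lemma chrW (H : Hyp Ω lam u) {φ : ℂ → ℝ} (hφ : Wt Ω φ) {n k : ℕ} (c w : Fin k → ℂ)
    (hw : ∀ j, 1 / √(lam n) * ‖w j‖ < 1) :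
    (mass Ω : ℂ) * ∫ p, (φ p.1 : ℂ) * ex (lam n) (u n) c w p ∂(P Ω) =
      area Ω fun z => (φ z : ℂ) * frames (fun v => Complex.exp (I *
        ((∑ j, (c j).re * loc (lam n) (u n) z (v j) : ℝ) : ℂ))) w := by
  have := probz H
  have := probP H
  have hm := ex_meas (H.sm n) (lam := lam n) c w
  have hi := int_wt_ex H hφ n c w
  unfold P at hi ⊢
  have hmass : (mass Ω : ℂ) ≠ 0 := by exact_mod_cast (mpos H).ne'
  rw [integral_prod _ hi, int_Pz (mpos H), Complex.real_smul, ← mul_assoc, Complex.ofReal_inv,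
    mul_inv_cancel₀ hmass, one_mul]
  unfold area
  refine setIntegral_congr_fun H.op.measurableSet fun z hz => ?_
  show (1 / z.im ^ 2) • ∫ q, (φ z : ℂ) * ex (lam n) (u n) c w (z, q) ∂Q = _
  rw [Complex.real_smul, integral_const_mul]
  congr 1
  congr 1
  have hi2 : Integrable (fun q => ex (lam n) (u n) c w (z, q)) Q :=
    Integrable.of_bound (hm.comp measurable_prodMk_left).aestronglyMeasurable 1
      (Eventually.of_forall fun p => (ex_norm _ _ c w _).le)
  rw [int_Q _ hi2, Complex.real_smul]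
  unfold frames
  congr 1
  congr 1
  funext θ
  have hre : ∀ (f : Fin k → ℂ) (g : Fin k → ℝ), (∀ j, f j = (g j : ℂ)) →
      (∑ j, c j * f j).re = ∑ j, (c j).re * g j := by
    intro f g h
    rw [Complex.re_sum]
    refine Finset.sum_congr rfl fun j _ => ?_
    rw [h j, Complex.re_mul_ofReal]
  have hmv : ∀ v : ℂ, u n (mv (1 / √(lam n)) v z) = loc (lam n) (u n) z v := by
    intro v
    unfold loc mv
    congr 4
    ring
  congr 1
  · unfold ex
    rw [hre _ (fun j => loc (lam n) (u n) z (E θ * w j)) fun j => ?_]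
    · rfl
    · rw [X_true (hw j) (H.sub hz), zpow_zero, one_mul, ← hmv]
      rfl
  · unfold ex
    rw [hre _ (fun j => loc (lam n) (u n) z (E θ * starRingEnd ℂ (w j))) fun j => ?_]
    · rfl
    · rw [X_false (hw j) (H.sub hz), ← hmv]
      simp only [Int.natAbs_zero, pow_zero, neg_zero, zpow_zero, one_mul]
      rfl

/-- removing the weight costs at most the missing mass -/
lemma wt_err (H : Hyp Ω lam u) {φ : ℂ → ℝ} (hφ : Wt Ω φ) (n : ℕ) {k : ℕ} (c w : Fin k → ℂ) :
    ‖(∫ p, (φ p.1 : ℂ) * ex (lam n) (u n) c w p ∂(P Ω)) -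
      ∫ p, ex (lam n) (u n) c w p ∂(P Ω)‖ ≤ 1 - ∫ z, φ z ∂(Pz Ω) := by
  have := probP H
  have hm := ex_meas (H.sm n) (lam := lam n) c w
  have hi : Integrable (ex (lam n) (u n) c w) (P Ω) :=
    Integrable.of_bound hm.aestronglyMeasurable 1
      (Eventually.of_forall fun p => (ex_norm _ _ c w p).le)
  rw [← fstP H, ← integral_sub (int_wt_ex H hφ n c w) hi]
  refine (norm_integral_le_integral_norm _).trans (le_of_eq ?_)
  have h4 : ∀ p : ℂ × (ℝ × Bool), ‖(φ p.1 : ℂ) * ex (lam n) (u n) c w p -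
      ex (lam n) (u n) c w p‖ = 1 - φ p.1 := by
    intro p
    have : (φ p.1 : ℂ) * ex (lam n) (u n) c w p - ex (lam n) (u n) c w p =
        ((φ p.1 - 1 : ℝ) : ℂ) * ex (lam n) (u n) c w p := by
      push_cast
      ring
    rw [this, norm_mul, ex_norm, mul_one, Complex.norm_real, Real.norm_eq_abs,
      abs_of_nonpos (by linarith [(hφ.mem p.1).2])]
    ring
  simp only [h4]
  rw [integral_sub (integrable_const _) (int_wt H hφ)]
  simp

/-- one function -/
lemma one_fun (H : Hyp Ω lam u) {χ : ℂ} (hχ : ‖χ‖ ≤ 1) {k : ℕ} (w : Fin k → ℂ) (t : Fin k → ℝ)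
    (h : ∀ φ, TF Ω φ → Tendsto (fun n => area Ω fun z => (φ z : ℂ) * frames (fun v =>
      Complex.exp (I * ((∑ j, t j * loc (lam n) (u n) z (v j) : ℝ) : ℂ))) w) atTop
        (𝓝 (χ * area Ω fun z => (φ z : ℂ)))) :
    Tendsto (fun n => Pool.Agent.H992.LB.locChar Ω (lam n) (u n) w t) atTop (𝓝 χ) := by
  have := probP H
  have hmass : (mass Ω : ℂ) ≠ 0 := by exact_mod_cast (mpos H).ne'
  have hsm : ∀ᶠ n in atTop, ∀ j, 1 / √(lam n) * ‖w j‖ < 1 :=
    Filter.eventually_all.2 fun j => small H (w j)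
  obtain ⟨φ, hφ, hlim⟩ := exists_wt H
  rw [Metric.tendsto_atTop']
  intro ε hε
  obtain ⟨i, hi⟩ := ((hlim.eventually (lt_mem_nhds (show 1 - ε / 4 < (1 : ℝ) by linarith)))).exists
  have harea : (area Ω fun z => ((φ i z : ℝ) : ℂ)) = (mass Ω : ℂ) * ((∫ z, φ i z ∂(Pz Ω) : ℝ) : ℂ) := by
    rw [int_Pz (mpos H)]
    unfold area
    rw [smul_eq_mul, Complex.ofReal_mul, ← mul_assoc, Complex.ofReal_inv, mul_inv_cancel₀ hmass,
      one_mul, ← integral_complex_ofReal]
    refine integral_congr_ae (Eventually.of_forall fun z => ?_)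
    simp
  have h1 := (h (φ i) (hφ i).tf).const_mul (mass Ω : ℂ)⁻¹
  have h2 : (mass Ω : ℂ)⁻¹ * (χ * area Ω fun z => ((φ i z : ℝ) : ℂ)) = χ * ((∫ z, φ i z ∂(Pz Ω) : ℝ) : ℂ) := by
    rw [harea]
    field_simp
  rw [h2] at h1
  have h3 := (Metric.tendsto_nhds.1 h1) (ε / 4) (by positivity)
  obtain ⟨N, hN⟩ := Filter.eventually_atTop.1 (h3.and hsm)
  refine ⟨N, fun n hn => ?_⟩
  obtain ⟨h4, hw⟩ := hN n hn.le
  have e1 := chr H (n := n) (fun j => ((t j : ℝ) : ℂ)) w hw
  have e2 := chrW H (hφ i) (n := n) (fun j => ((t j : ℝ) : ℂ)) w hw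
  simp only [Complex.ofReal_re] at e1 e2
  have e3 : Pool.Agent.H992.LB.locChar Ω (lam n) (u n) w t =
      ∫ p, ex (lam n) (u n) (fun j => ((t j : ℝ) : ℂ)) w p ∂(P Ω) := by
    rw [e1]; rfl
  rw [← e2, ← mul_assoc, inv_mul_cancel₀ hmass, one_mul, dist_eq_norm] at h4
  have h5 := wt_err H (hφ i) n (fun j => ((t j : ℝ) : ℂ)) w
  rw [dist_eq_norm, e3]
  set A := ∫ p, ex (lam n) (u n) (fun j => ((t j : ℝ) : ℂ)) w p ∂(P Ω)
  set B := ∫ p, ((φ i p.1 : ℝ) : ℂ) * ex (lam n) (u n) (fun j => ((t j : ℝ) : ℂ)) w p ∂(P Ω)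
  set m := ∫ z, φ i z ∂(Pz Ω)
  have h6 : ‖χ * ((m : ℝ) : ℂ) - χ‖ ≤ 1 - m := by
    have : χ * ((m : ℝ) : ℂ) - χ = χ * ((m - 1 : ℝ) : ℂ) := by push_cast; ring
    have hm1 : m ≤ 1 := by
      have := (norm_nonneg (B - A)).trans h5
      linarith
    rw [this, norm_mul, Complex.norm_real, Real.norm_eq_abs, abs_of_nonpos (by linarith)]
    nlinarith [norm_nonneg χ]
  have h7 : A - χ = -(B - A) + (B - χ * ((m : ℝ) : ℂ)) + (χ * ((m : ℝ) : ℂ) - χ) := by ring
  rw [h7]
  calc ‖-(B - A) + (B - χ * ((m : ℝ) : ℂ)) + (χ * ((m : ℝ) : ℂ) - χ)‖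
      ≤ ‖-(B - A)‖ + ‖B - χ * ((m : ℝ) : ℂ)‖ + ‖χ * ((m : ℝ) : ℂ) - χ‖ := norm_add₃_le
    _ < ε := by
      rw [norm_neg]
      linarith

end

open Pool.Agent.H992.LB (locChar criterion criterion_conv rw_erg)
open Pool.Agent.H992.SF

theorem equiv (h : S_PROD) : S_EQUIV := by
  intro d Ω lam u H hsep γ hγP hγ U hU hne
  constructor
  · intro hall
    have hLL : ∀ i, LocalLaws Ω (lam i) (u i) γ := by
      intro i k w t
      obtain ⟨C, hC⟩ := hall i
      exact criterion (H i) hγ (hU i) (hne i) (C := C) hC k w t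
    intro ψ hψ k w t
    exact h d Ω lam u H hsep (fun _ => γ) (fun _ => hγP) (fun _ => rw_erg hγ) hLL ψ hψ k w t
  · intro hall i
    refine ⟨1, fun n k w t c _ ε hε => ?_⟩
    refine criterion_conv (γ := γ) (lam := lam i) (u := u i) (fun k w t => ?_) n k w t c ε hε
    refine one_fun (H i) ?_ w t fun φ hφ => ?_
    · refine (norm_integral_le_integral_norm _).trans (le_of_eq ?_)
      have : ∀ f : MW, ‖Complex.exp (I * (lin w t f : ℝ))‖ = 1 := fun f => by
        rw [mul_comm, Complex.norm_exp_ofReal_mul_I]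
      simp only [this]
      simp
    · have h1 := hall φ hφ k (fun _ => w) (Function.update 0 i t)
      have h2 : (∏ i', ∫ f, Complex.exp (I * (lin w ((Function.update 0 i t : Fin (d + 1) → Fin k → ℝ) i') f : ℝ)) ∂γ) =
          ∫ f, Complex.exp (I * (lin w t f : ℝ)) ∂γ := by
        rw [Finset.prod_eq_single i]
        · rw [Function.update_self]
        · intro i' _ hne'
          rw [Function.update_of_ne hne']
          have : ∀ f : MW, lin w (0 : Fin k → ℝ) f = 0 := fun f => by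
            unfold lin; simp
          simp only [Pi.zero_apply, this]
          simp
        · intro hi; exact absurd (Finset.mem_univ _) hi
      rw [h2] at h1
      refine h1.congr fun n => ?_
      unfold jChar area
      refine integral_congr_ae (Eventually.of_forall fun z => ?_)
      simp only []
      congr 2
      unfold frameMean frames
      congr 1
      refine intervalIntegral.integral_congr fun θ _ => ?_
      have h3 : ∀ R : ℂ → ℂ, (∑ i', ∑ j, (Function.update 0 i t : Fin (d + 1) → Fin k → ℝ) i' j *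
          loc (lam i' n) (u i' n) z (R (w j))) = ∑ j, t j * loc (lam i n) (u i n) z (R (w j)) := by
        intro R
        rw [Finset.sum_eq_single i]
        · rw [Function.update_self]
        · intro i' _ hne'
          rw [Function.update_of_ne hne']
          simp
        · intro hi; exact absurd (Finset.mem_univ _) hi
      have h3a := h3 (fun v => Complex.exp (θ * I) * v)
      have h3b := h3 (fun v => Complex.exp (θ * I) * starRingEnd ℂ v)
      beta_reduce at h3a h3b ⊢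
      rw [h3a, h3b]

end Pool.Agent.H299.SF

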